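import Pool.Agent.Mg.F952ea4.Gf27f42

open Pool.Agent.MP_952ea4_co

/-- No simplicial complex containing the 24 tetrahedra on twelve distinct vertices is the boundary
complex of a convex 4-polytope. -/
theorem Pool.Agent.Results.MP_952ea4_co.NoPolytopalCompletion.result
    {V : Type*} (T : AbstractSimplicialComplex V) (ι : Vtx ↪ V)
    (hK : ∀ τ ∈ commonTetrahedra, τ.map ι ∈ T.faces) :
    ¬ IsBoundaryComplexOfFourPolytope T :=
  Pool.Agent.MP_952ea4_co.main T ι hK
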